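import Pool.Agent.Helper63.XR.StA

/-!
# Project XR, module SP5: the decomposition for the new functionals
-/

set_option autoImplicit false

namespace Pool.Agent.Helper98.XR

open Finset Pool.Agent.Helper63.XR

variable {P : Type} [Fintype P] [DecidableEq P] {k b : ℕ} {a : ℕ → ℕ} {S : Type} [Fintype S] [DecidableEq S]

theorem sp5_mem_Al {g : LG P k b a} {t : S → ℝ} {l : ℕ} {j : S × P} :
    j ∈ Al g t l ↔ t j.1 = 1 ∧ g.lev j.2 = l := by
  simp [Al]

theorem sp5_mem_Gs {g : LG P k b a} {Bad : Finset (S × P)} {j u : S × P} :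
    u ∈ Gs g Bad j ↔ (u.1 = j.1 ∧ u.2 ∈ g.ch j.2) ∧ u ∉ Bad := by
  unfold Gs
  rw [mem_sdiff, mem_image]
  constructor
  · rintro ⟨⟨c, hc, rfl⟩, h2⟩
    exact ⟨⟨rfl, hc⟩, h2⟩
  · rintro ⟨⟨h1, h2⟩, h3⟩
    exact ⟨⟨u.2, h2, Prod.ext h1.symm rfl⟩, h3⟩

theorem sp5_wt {lam : ℝ} (hl : 0 < lam) (A n : ℕ) : 0 ≤ wt lam A n ∧ wt lam A n ≤ 1 := by
  unfold wt
  split_ifs with h
  · refine ⟨by positivity, ?_⟩
    apply div_le_one_of_le₀ h
    positivity
  · exact ⟨le_rfl, zero_le_one⟩

theorem sp5_share {g : LG P k b a} {Bad : Finset (S × P)} {j j' : S × P} (h : j ≠ j') :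
    (Gs g Bad j ∩ Gs g Bad j').card ≤ 1 := by
  by_cases h1 : j.1 = j'.1
  · have h2 : j.2 ≠ j'.2 := fun h3 => h (Prod.ext h1 h3)
    refine le_trans ?_ (g.share _ _ h2)
    apply card_le_card_of_injOn Prod.snd
    · intro u hu
      obtain ⟨hu1, hu2⟩ := mem_inter.1 (mem_coe.1 hu)
      exact mem_coe.2 (mem_inter.2 ⟨(sp5_mem_Gs.1 hu1).1.2, (sp5_mem_Gs.1 hu2).1.2⟩)
    · intro u hu u' hu' huu
      obtain ⟨hu1, _⟩ := mem_inter.1 (mem_coe.1 hu)
      obtain ⟨hu1', _⟩ := mem_inter.1 (mem_coe.1 hu')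
      exact Prod.ext ((sp5_mem_Gs.1 hu1).1.1.trans (sp5_mem_Gs.1 hu1').1.1.symm) huu
  · have h2 : Gs g Bad j ∩ Gs g Bad j' = ∅ := by
      rw [eq_empty_iff_forall_notMem]
      intro u hu
      obtain ⟨hu1, hu2⟩ := mem_inter.1 hu
      exact h1 ((sp5_mem_Gs.1 hu1).1.1.symm.trans (sp5_mem_Gs.1 hu2).1.1)
    rw [h2, card_empty]
    exact Nat.zero_le _

theorem sp5_card {g : LG P k b a} {Bad : Finset (S × P)} {t : S → ℝ} {l : ℕ} (hl : l < k) {j : S × P}
    (hj : j ∈ Al g t l) : (Gs g Bad j).card ≤ a (l + 1) := by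
  have h1 := (sp5_mem_Al.1 hj).2
  have h2 : (g.ch j.2).card = a (l + 1) := by
    rw [g.card_ch j.2 (by omega), h1]
  rw [← h2]
  unfold Gs
  exact (card_le_card sdiff_subset).trans card_image_le

theorem sp5_psi {g : LG P k b a} {lam : ℝ} {Bad : Finset (S × P)} {l : ℕ}
    {ψ : ℕ → (S × P) → (S × P) → ℝ} {q : ℕ} (hq : l < q) (j : S × P) (f : S × P → ℂ) :
    pr (psiN g lam Bad l ψ q j) f =
      (wt lam (a (l + 1)) (Gs g Bad j).card : ℂ) * ∑ u ∈ Gs g Bad j, pr (ψ q u) f := by
  have h1 : ∀ i, psiN g lam Bad l ψ q j i =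
      wt lam (a (l + 1)) (Gs g Bad j).card * ∑ u ∈ Gs g Bad j, ψ q u i := by
    intro i
    unfold psiN
    rw [if_neg (by omega), if_pos hq]
  unfold pr
  rw [sum_comm, mul_sum]
  apply sum_congr rfl
  intro i _
  rw [h1]
  push_cast
  rw [← sum_mul]
  ring

theorem hSP5 : StSp5 := by
  intro hDec hBon P _ _ k b a g S _ _ t lam E Bad l ψ κ ζ ε τ z s0 hlam hl hP4 hP5 hκ hζ hζε hτ hs hs2
    hins hnoi f hf hf1 q hq hqk
  rcases Nat.eq_or_lt_of_le hq with rfl | hlq
  · refine ⟨f, 0, ?_, ?_, ?_⟩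
    · intro j _
      have h0 : ∀ i, psiN g lam Bad l ψ l j i = if i = j then 1 else 0 := by
        intro i
        unfold psiN
        rw [if_pos rfl]
      unfold pr
      rw [sum_eq_single j]
      · rw [h0, if_pos rfl]
        simp
      · intro i _ hij
        rw [h0, if_neg hij]
        simp
      · intro h
        exact absurd (mem_univ j) h
    · have h1 : ∑ j ∈ Al g t l, ‖f j‖ ≤ n1 f :=
        sum_le_sum_of_subset_of_nonneg (subset_univ _) fun _ _ _ => norm_nonneg _
      linarith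
    · simp
      positivity
  · obtain ⟨y1, y2, hy, hy1, hy2⟩ := hP5 f hf hf1 q (by omega) hqk
    have hε : 0 ≤ ε := hζ.trans hζε
    have hsub : ∀ j ∈ Al g t l, ∀ u ∈ Gs g Bad j, u ∈ Al g t (l + 1) ∧ u ∉ Bad := by
      intro j hj u hu
      obtain ⟨⟨hu1, hu2⟩, hu3⟩ := sp5_mem_Gs.1 hu
      obtain ⟨hj1, hj2⟩ := sp5_mem_Al.1 hj
      refine ⟨sp5_mem_Al.2 ⟨by rw [hu1]; exact hj1, ?_⟩, hu3⟩
      rw [g.ch_lev _ _ hu2, hj2]
    obtain ⟨G, hG⟩ : ∃ G : S × P → Finset (S × P), G = fun j => if j ∈ Al g t l then Gs g Bad j else ∅ :=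
      ⟨_, rfl⟩
    have hG1 : ∀ j ∈ Al g t l, G j = Gs g Bad j := by
      intro j hj
      rw [hG]
      simp only
      rw [if_pos hj]
    have hG2 : ∀ j, j ∉ Al g t l → G j = ∅ := by
      intro j hj
      rw [hG]
      simp only
      rw [if_neg hj]
    obtain ⟨Y1, hY1⟩ : ∃ Y1 : S × P → ℂ, Y1 = fun u => if u ∈ Al g t (l + 1) then y1 u else 0 := ⟨_, rfl⟩
    obtain ⟨Y2, hY2⟩ : ∃ Y2 : S × P → ℂ, Y2 = fun u => if u ∈ Al g t (l + 1) then y2 u else 0 := ⟨_, rfl⟩
    have hYs : ∀ u ∈ Al g t (l + 1), Y1 u + Y2 u = pr (ψ q u) f := by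
      intro u hu
      rw [hY1, hY2]
      simp only
      rw [if_pos hu, if_pos hu]
      exact (hy u hu).symm
    obtain ⟨z1, z2, hz, hz1, hz2⟩ := hDec hBon (S × P) (S × P) G
      (fun j => wt lam (a (l + 1)) (Gs g Bad j).card) Y1 Y2 κ ζ ε τ z s0 (a l) (a (l + 1))
      (fun j => sp5_wt hlam _ _)
      (by
        intro j j' hjj
        by_cases h1 : j ∈ Al g t l
        · by_cases h2 : j' ∈ Al g t l
          · rw [hG1 j h1, hG1 j' h2]
            exact sp5_share hjj
          · rw [hG2 j' h2, inter_empty, card_empty]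
            exact Nat.zero_le _
        · rw [hG2 j h1, empty_inter, card_empty]
          exact Nat.zero_le _)
      (by
        intro u
        rcases (univ.filter fun j => u ∈ G j).eq_empty_or_nonempty with h0 | ⟨j0, hj0⟩
        · rw [h0, card_empty]
          exact Nat.zero_le _
        · have key : ∀ j, u ∈ G j → u.1 = j.1 ∧ u.2 ∈ g.ch j.2 ∧ g.lev j.2 = l := by
            intro j hj
            by_cases h1 : j ∈ Al g t l
            · rw [hG1 j h1] at hj
              obtain ⟨⟨hu1, hu2⟩, _⟩ := sp5_mem_Gs.1 hj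
              exact ⟨hu1, hu2, (sp5_mem_Al.1 h1).2⟩
            · rw [hG2 j h1] at hj
              simp at hj
          have hk0 := key j0 (mem_filter.1 hj0).2
          have hlev : g.lev u.2 - 1 = l := by
            rw [g.ch_lev _ _ hk0.2.1, hk0.2.2]
            omega
          rw [← hlev]
          refine le_trans ?_ (g.card_par u.2)
          apply card_le_card_of_injOn Prod.snd
          · intro j hj
            have hj' := key j (mem_filter.1 (mem_coe.1 hj)).2
            exact mem_coe.2 (mem_filter.2 ⟨mem_univ _, hj'.2.1⟩)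
          · intro j hj j' hj' hjj
            have h1 := key j (mem_filter.1 (mem_coe.1 hj)).2
            have h2 := key j' (mem_filter.1 (mem_coe.1 hj')).2
            exact Prod.ext (h1.1.symm.trans h2.1) hjj)
      (by
        intro j
        by_cases h1 : j ∈ Al g t l
        · rw [hG1 j h1]
          exact sp5_card hl h1
        · rw [hG2 j h1, card_empty]
          exact Nat.zero_le _)
      (by
        rw [hY1]
        simp only
        refine le_trans (le_of_eq ?_) hy1
        rw [← sum_filter_add_sum_filter_not univ (fun u => u ∈ Al g t (l + 1))]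
        rw [filter_mem_eq_inter, univ_inter]
        have h1 : ∑ u ∈ univ.filter (fun u => ¬ u ∈ Al g t (l + 1)),
            ‖(if u ∈ Al g t (l + 1) then y1 u else 0 : ℂ)‖ = 0 := by
          apply sum_eq_zero
          intro u hu
          rw [if_neg (mem_filter.1 hu).2, norm_zero]
        rw [h1, add_zero]
        apply sum_congr rfl
        intro u hu
        rw [if_pos hu])
      (by
        rw [hY2]
        simp only
        refine le_trans (le_of_eq ?_) hy2
        rw [← sum_filter_add_sum_filter_not univ (fun u => u ∈ Al g t (l + 1))]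
        rw [filter_mem_eq_inter, univ_inter]
        have h1 : ∑ u ∈ univ.filter (fun u => ¬ u ∈ Al g t (l + 1)),
            ‖(if u ∈ Al g t (l + 1) then y2 u else 0 : ℂ)‖ ^ 2 = 0 := by
          apply sum_eq_zero
          intro u hu
          rw [if_neg (mem_filter.1 hu).2, norm_zero]
          norm_num
        rw [h1, add_zero]
        apply sum_congr rfl
        intro u hu
        rw [if_pos hu])
      hζ hζε
      (by
        intro j u hu
        by_cases h1 : j ∈ Al g t l
        · rw [hG1 j h1] at hu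
          obtain ⟨h2, h3⟩ := hsub j h1 u hu
          rw [hYs u h2]
          have h4 := hP4 u h2 h3 q (by omega) hqk f hf
          have h5 : ε * n1 f ≤ ε * 1 := mul_le_mul_of_nonneg_left hf1 hε
          linarith
        · rw [hG2 j h1] at hu
          simp at hu)
      hτ hs hs2 hins hnoi
    refine ⟨z1, z2, ?_, ?_, ?_⟩
    · intro j hj
      rw [sp5_psi hlq, ← hz j, hG1 j hj]
      congr 1
      apply sum_congr rfl
      intro u hu
      exact (hYs u (hsub j hj u hu).1).symm
    · exact le_trans (sum_le_sum_of_subset_of_nonneg (subset_univ _) fun _ _ _ => norm_nonneg _) hz1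
    · exact le_trans (sum_le_sum_of_subset_of_nonneg (subset_univ _) fun _ _ _ => by positivity) hz2

end Pool.Agent.Helper98.XR
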